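import Mathlib
import Pool.Agent.Results.MP_bd8c52_co.MomentCriterion

set_option autoImplicit false

namespace Pool.Agent.H47.Sidon

open Finset Pool.Agent.H54.Sidon
open Pool.Agent.Results.MP_bd8c52_co.MomentCriterion (proj)

variable {p : ℕ} [hp : Fact p.Prime]

theorem proj_sub (m : Option (ZMod p)) (x y : ZMod p × ZMod p) :
    proj m (x - y) = proj m x - proj m y := by
  rcases m with _ | m
  · simp [proj]
  · simp only [proj, Prod.fst_sub, Prod.snd_sub]; ring

theorem proj_zero (m : Option (ZMod p)) : proj m (0 : ZMod p × ZMod p) = 0 := by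
  rcases m with _ | m <;> simp [proj]

theorem proj_neg (m : Option (ZMod p)) (x : ZMod p × ZMod p) :
    proj m (-x) = - proj m x := by
  have h := proj_sub m 0 x
  rw [zero_sub, proj_zero, zero_sub] at h
  exact h

/-- the direction of a vector -/
def dir (t : ZMod p × ZMod p) : Option (ZMod p) :=
  if t.1 = 0 then none else some (t.2 / t.1)

theorem dir_spec (t : ZMod p × ZMod p) (ht : t ≠ 0) (m : Option (ZMod p)) :
    proj m t = 0 ↔ dir t = m := by
  unfold dir
  rcases m with _ | m
  · simp only [proj]
    by_cases h : t.1 = 0 <;> simp [h]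
  · simp only [proj]
    by_cases h : t.1 = 0
    · have h2 : t.2 ≠ 0 := fun h2 => ht (Prod.ext h h2)
      simp [h, h2]
    · simp only [h, if_false, Option.some.injEq]
      rw [div_eq_iff h, sub_eq_zero]

/-- a fibre of a projection has `p` points -/
theorem card_fibre (m : Option (ZMod p)) (d : ZMod p) :
    (univ.filter fun x : ZMod p × ZMod p => proj m x = d).card = p := by
  classical
  rcases m with _ | m
  · have : (univ.filter fun x : ZMod p × ZMod p => proj none x = d) =
        (univ : Finset (ZMod p)).image (fun y => (d, y)) := by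
      ext x
      rw [mem_filter, mem_image]
      constructor
      · rintro ⟨_, h⟩
        refine ⟨x.2, mem_univ _, ?_⟩
        rw [← h]
        rfl
      · rintro ⟨y, _, rfl⟩; exact ⟨mem_univ _, rfl⟩
    rw [this, Finset.card_image_of_injective, Finset.card_univ, ZMod.card]
    intro a b h
    exact (Prod.mk.inj h).2
  · have : (univ.filter fun x : ZMod p × ZMod p => proj (some m) x = d) =
        (univ : Finset (ZMod p)).image (fun y => (y, d + m * y)) := by
      ext x
      rw [mem_filter, mem_image]
      constructor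
      · rintro ⟨_, h⟩
        refine ⟨x.1, mem_univ _, Prod.ext rfl ?_⟩
        have h' : x.2 - m * x.1 = d := h
        change d + m * x.1 = x.2
        rw [← h']; ring
      · rintro ⟨y, _, rfl⟩
        refine ⟨mem_univ _, ?_⟩
        change d + m * y - m * y = d
        ring
    rw [this, Finset.card_image_of_injective, Finset.card_univ, ZMod.card]
    intro a b h
    exact (Prod.mk.inj h).1

/-- the differences of distinct elements, counted in a fibre -/
theorem offDiag_count (S T : Finset (ZMod p × ZMod p))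
    (hSid : ∀ a ∈ S, ∀ b ∈ S, ∀ c ∈ S, ∀ d ∈ S,
      a + b = c + d → (a = c ∧ b = d) ∨ (a = d ∧ b = c))
    (hT : ∀ x, x ∈ T ↔ x = 0 ∨ ∀ a ∈ S, ∀ b ∈ S, a - b ≠ x)
    (m : Option (ZMod p)) (d : ZMod p) :
    (S.offDiag.filter fun x => proj m (x.1 - x.2) = d).card =
      ((univ \ T).filter fun x => proj m x = d).card := by
  classical
  apply Finset.card_bij (fun x _ => x.1 - x.2)
  · intro x hx
    rw [mem_filter, mem_offDiag] at hx
    simp only [mem_filter, mem_sdiff, mem_univ, true_and]
    refine ⟨?_, hx.2⟩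
    rw [hT]
    push Not
    exact ⟨fun h => hx.1.2.2 (sub_eq_zero.1 h), x.1, hx.1.1, x.2, hx.1.2.1, rfl⟩
  · rintro ⟨a, b⟩ hx ⟨c, d⟩ hy h
    rw [mem_filter, mem_offDiag] at hx hy
    simp only at h hx hy
    have h' : a + d = c + b := by
      have := sub_eq_sub_iff_add_eq_add.1 h
      exact this
    rcases hSid a hx.1.1 d hy.1.2.1 c hy.1.1 b hx.1.2.1 h' with ⟨h1, h2⟩ | ⟨h1, h2⟩
    · rw [h1, h2]
    · exact absurd h1 hx.1.2.2
  · intro x hx
    simp only [mem_filter, mem_sdiff, mem_univ, true_and] at hx
    obtain ⟨hx1, hx2⟩ := hx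
    rw [hT] at hx1
    push Not at hx1
    obtain ⟨hx0, a, ha, b, hb, hab⟩ := hx1
    refine ⟨(a, b), ?_, hab⟩
    rw [mem_filter, mem_offDiag]
    refine ⟨⟨ha, hb, ?_⟩, by simp only; rw [hab]; exact hx2⟩
    rintro h
    apply hx0
    rw [← hab]
    exact sub_eq_zero.2 h

/-- pairs with a given difference of projections -/
theorem pair_count (S : Finset (ZMod p × ZMod p)) (m : Option (ZMod p)) (d : ZMod p) :
    ((S ×ˢ S).filter fun x => proj m (x.1 - x.2) = d).card =
      ∑ c : ZMod p, (S.filter fun s => proj m s = c + d).card *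
        (S.filter fun s => proj m s = c).card := by
  classical
  rw [Finset.card_eq_sum_card_fiberwise (f := fun x : (ZMod p × ZMod p) × (ZMod p × ZMod p) =>
    proj m x.2) (t := univ) (fun _ _ => by simp)]
  apply Finset.sum_congr rfl
  intro c _
  rw [← Finset.card_product]
  congr 1
  ext x
  simp only [mem_filter, mem_product, proj_sub]
  constructor
  · rintro ⟨⟨⟨h1, h2⟩, h3⟩, h4⟩
    refine ⟨⟨h1, ?_⟩, h2, h4⟩
    rw [← h4, ← h3]; ring
  · rintro ⟨⟨h1, h2⟩, h3, h4⟩
    refine ⟨⟨⟨h1, h3⟩, ?_⟩, h4⟩
    rw [h2, h4]; ring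


/-- fibre sizes of `S` and of `T` -/
def fib (S : Finset (ZMod p × ZMod p)) (m : Option (ZMod p)) (c : ZMod p) : ℕ :=
  (S.filter fun s => proj m s = c).card

theorem sum_fib (S : Finset (ZMod p × ZMod p)) (m : Option (ZMod p)) :
    ∑ c, fib S m c = S.card := by
  classical
  have h := Finset.card_eq_sum_card_fiberwise (s := S) (f := proj m) (t := univ)
    (fun _ _ => by simp)
  exact h.symm

theorem compl_fib (T : Finset (ZMod p × ZMod p)) (m : Option (ZMod p)) (d : ZMod p) :
    ((univ \ T).filter fun x => proj m x = d).card + fib T m d = p := by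
  classical
  have h := card_fibre m d
  have h2 : ((univ \ T).filter fun x => proj m x = d).card + fib T m d =
      (univ.filter fun x : ZMod p × ZMod p => proj m x = d).card := by
    rw [fib, ← Finset.card_union_of_disjoint]
    · congr 1
      ext x
      simp only [mem_union, mem_filter, mem_sdiff, mem_univ, true_and]
      tauto
    · apply Finset.disjoint_filter_filter
      exact Finset.sdiff_disjoint
  exact h2.trans h

section Sid

variable (S T : Finset (ZMod p × ZMod p)) (hS : S.card = p)
  (hSid : ∀ a ∈ S, ∀ b ∈ S, ∀ c ∈ S, ∀ d ∈ S,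
      a + b = c + d → (a = c ∧ b = d) ∨ (a = d ∧ b = c))
  (hT : ∀ x, x ∈ T ↔ x = 0 ∨ ∀ a ∈ S, ∀ b ∈ S, a - b ≠ x)

include hS hSid hT

omit hS in
theorem corr_ne (m : Option (ZMod p)) (d : ZMod p) (hd : d ≠ 0) :
    ∑ c, fib S m (c + d) * fib S m c + fib T m d = p := by
  classical
  have h1 := pair_count S m d
  have h3 : ((S ×ˢ S).filter fun x => proj m (x.1 - x.2) = d) =
      (S.offDiag.filter fun x => proj m (x.1 - x.2) = d) := by
    ext x
    simp only [mem_filter, mem_product, mem_offDiag]
    constructor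
    · rintro ⟨⟨h5, h6⟩, h7⟩
      refine ⟨⟨h5, h6, ?_⟩, h7⟩
      intro h8
      apply hd
      rw [← h7, h8, sub_self, proj_zero]
    · rintro ⟨⟨h5, h6, _⟩, h7⟩
      exact ⟨⟨h5, h6⟩, h7⟩
  rw [h3, offDiag_count S T hSid hT m d] at h1
  have h2 := compl_fib T m d
  rw [h1] at h2
  exact h2

theorem corr_zero (m : Option (ZMod p)) :
    ∑ c, fib S m c * fib S m c + fib T m 0 = 2 * p := by
  classical
  have h1 := pair_count S m 0
  simp only [add_zero] at h1
  have h2 : ((S ×ˢ S).filter fun x => proj m (x.1 - x.2) = 0).card =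
      (S.diag).card + (S.offDiag.filter fun x => proj m (x.1 - x.2) = 0).card := by
    rw [← Finset.diag_union_offDiag, Finset.filter_union, Finset.card_union_of_disjoint]
    · congr 1
      congr 1
      apply Finset.filter_true_of_mem
      intro x hx
      rw [mem_diag] at hx
      rw [hx.2, sub_self, proj_zero]
    · exact Finset.disjoint_filter_filter (Finset.disjoint_diag_offDiag S)
  rw [h2, Finset.diag_card, hS, offDiag_count S T hSid hT m 0] at h1
  have h3 := compl_fib T m 0
  change p + _ = ∑ c, fib S m c * fib S m c at h1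
  omega

end Sid

/-- the values `c` for which the line `proj m = c` meets `S` in an odd number of points -/
def oddSet (S : Finset (ZMod p × ZMod p)) (m : Option (ZMod p)) : Finset (ZMod p) :=
  univ.filter fun c => Odd (fib S m c)

theorem mem_oddSet (S : Finset (ZMod p × ZMod p)) (m : Option (ZMod p)) (c : ZMod p) :
    c ∈ oddSet S m ↔ Odd (fib S m c) := by
  simp [oddSet]

theorem cast_two_odd (n : ℕ) : ((n : ℕ) : ZMod 2) = if Odd n then 1 else 0 := by
  split_ifs with h
  · exact ZMod.natCast_eq_one_iff_odd.2 h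
  · exact ZMod.natCast_eq_zero_iff_even.2 (Nat.not_odd_iff_even.1 h)

theorem odd_card_oddSet (S : Finset (ZMod p × ZMod p)) (m : Option (ZMod p)) :
    (((oddSet S m).card : ℕ) : ZMod 2) = ((S.card : ℕ) : ZMod 2) := by
  classical
  rw [← sum_fib S m, Nat.cast_sum, oddSet, Finset.card_filter, Nat.cast_sum]
  apply Finset.sum_congr rfl
  intro c _
  rw [cast_two_odd (fib S m c)]
  split_ifs <;> simp

section Sid2

variable (S T : Finset (ZMod p × ZMod p)) (hS : S.card = p)
  (hSid : ∀ a ∈ S, ∀ b ∈ S, ∀ c ∈ S, ∀ d ∈ S,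
      a + b = c + d → (a = c ∧ b = d) ∨ (a = d ∧ b = c))
  (hT : ∀ x, x ∈ T ↔ x = 0 ∨ ∀ a ∈ S, ∀ b ∈ S, a - b ≠ x)

include hS hSid hT

theorem tau_zero_odd (hp2 : p ≠ 2) (m : Option (ZMod p)) : Odd (fib T m 0) := by
  classical
  have hodd : Odd p := hp.out.odd_of_ne_two hp2
  have h1 := corr_zero S T hS hSid hT m
  have h2 : ((∑ c, fib S m c * fib S m c : ℕ) : ZMod 2) = ((∑ c, fib S m c : ℕ) : ZMod 2) := by
    rw [Nat.cast_sum, Nat.cast_sum]
    apply Finset.sum_congr rfl
    intro c _
    push_cast
    rw [cast_two_odd]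
    split_ifs <;> simp
  rw [sum_fib S m, hS, ZMod.natCast_eq_one_iff_odd.2 hodd, ZMod.natCast_eq_one_iff_odd] at h2
  by_contra hcon
  rw [Nat.not_odd_iff_even] at hcon
  have h3 := h2.add_even hcon
  rw [h1] at h3
  exact (Nat.not_odd_iff_even.2 (even_two_mul p)) h3

/-- the number of `d` with `τ(d)` even is at most `e(e-1)` -/
theorem even_card (hp2 : p ≠ 2) (m : Option (ZMod p)) :
    (univ.filter fun d => Even (fib T m d)).card ≤
      (oddSet S m).card * ((oddSet S m).card - 1) := by
  classical
  have hodd : Odd p := hp.out.odd_of_ne_two hp2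
  have h1 : (oddSet S m).card * ((oddSet S m).card - 1) = ((oddSet S m).offDiag).card := by
    rw [Finset.offDiag_card, Nat.mul_sub, mul_one]
  rw [h1]
  apply Finset.card_le_card_of_surjOn (fun x : ZMod p × ZMod p => x.1 - x.2)
  intro d hd
  simp only [coe_filter, mem_univ, true_and, Set.mem_ofPred_eq] at hd
  have hd0 : d ≠ 0 := by
    rintro rfl
    exact (Nat.not_even_iff_odd.2 (tau_zero_odd S T hS hSid hT hp2 m)) hd
  have h2 := corr_ne S T hSid hT m d hd0
  by_contra hcon
  have h3 : ∀ c, Even (fib S m (c + d) * fib S m c) := by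
    intro c
    by_contra hc
    rw [Nat.not_even_iff_odd, Nat.odd_mul] at hc
    apply hcon
    refine ⟨(c + d, c), ?_, by simp⟩
    simp only [coe_offDiag, Set.mem_offDiag, mem_coe, mem_oddSet]
    exact ⟨hc.1, hc.2, fun h => hd0 (by simpa using h)⟩
  have h4 : Even (∑ c, fib S m (c + d) * fib S m c) := Finset.even_sum _ (fun c _ => h3 c)
  have h5 := h4.add hd
  rw [h2] at h5
  exact (Nat.not_even_iff_odd.2 hodd) h5

/-- the defect of `T` in a direction is at most `3e(e-1)/2` -/
theorem defect_le (hp2 : p ≠ 2) (m : Option (ZMod p)) :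
    2 * (univ.filter fun d => fib T m d ≠ 1).card ≤
      3 * ((oddSet S m).card * ((oddSet S m).card - 1)) := by
  classical
  have hTcard : T.card = p := card_T S T hS hSid hT
  have h1 := even_card S T hS hSid hT hp2 m
  have h2 : ∑ d : ZMod p, (2 * (if fib T m d ≠ 1 then 1 else 0) + 1) ≤
      ∑ d : ZMod p, (3 * (if Even (fib T m d) then 1 else 0) + fib T m d) := by
    apply Finset.sum_le_sum
    intro d _
    by_cases h : fib T m d = 1
    · simp [h]
    · by_cases he : Even (fib T m d)
      · simp only [h, he, ne_eq, not_false_eq_true, if_true]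
        omega
      · have ho := Nat.not_even_iff_odd.1 he
        obtain ⟨k, hk⟩ := ho
        simp only [h, he, ne_eq, not_false_eq_true, if_true, if_false]
        omega
  rw [Finset.sum_add_distrib, Finset.sum_add_distrib, sum_fib T m, hTcard,
    ← Finset.mul_sum, ← Finset.mul_sum, ← Finset.card_filter, ← Finset.card_filter] at h2
  simp only [sum_const, card_univ, ZMod.card, smul_eq_mul, mul_one] at h2
  omega

omit hS hSid hT in
theorem inj_of_fib_one (m : Option (ZMod p)) (h : ∀ d, fib T m d = 1) :
    Set.InjOn (proj m) (T : Set (ZMod p × ZMod p)) := by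
  intro x hx y hy hxy
  obtain ⟨z, hz⟩ := Finset.card_eq_one.1 (h (proj m x))
  have h1 : x ∈ T.filter fun s => proj m s = proj m x := by
    rw [mem_filter]; exact ⟨hx, rfl⟩
  have h2 : y ∈ T.filter fun s => proj m s = proj m x := by
    rw [mem_filter]; exact ⟨hy, hxy.symm⟩
  rw [hz, mem_singleton] at h1 h2
  rw [h1, h2]

/-- one odd line in the direction `m` : then `proj m` is injective on `T` -/
theorem inj_of_odd_one (hp2 : p ≠ 2) (m : Option (ZMod p)) (h : (oddSet S m).card = 1) :
    Set.InjOn (proj m) (T : Set (ZMod p × ZMod p)) := by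
  classical
  have h1 := defect_le S T hS hSid hT hp2 m
  rw [h] at h1
  simp only [Nat.sub_self, mul_zero, nonpos_iff_eq_zero, mul_eq_zero, OfNat.ofNat_ne_zero,
    false_or, card_eq_zero] at h1
  apply inj_of_fib_one T m
  intro d
  by_contra hd
  have : d ∈ (univ.filter fun d => fib T m d ≠ 1) := by simp [hd]
  rw [h1] at this
  exact absurd this (Finset.notMem_empty d)

/-- fibres at most two: `e = τ(0)` -/
theorem odd_card_of_le_two (m : Option (ZMod p)) (h : ∀ c, fib S m c ≤ 2) :
    (oddSet S m).card = fib T m 0 := by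
  classical
  have h0 := corr_zero S T hS hSid hT m
  have h1 : ∀ c, 2 * fib S m c = fib S m c * fib S m c + (if Odd (fib S m c) then 1 else 0) := by
    intro c
    have := h c
    interval_cases h : fib S m c
    · simp
    · simp
    · have : ¬ Odd 2 := by decide
      simp [this]
  have h2 : ∑ c, 2 * fib S m c =
      ∑ c, fib S m c * fib S m c + ∑ c, (if Odd (fib S m c) then 1 else 0) := by
    rw [← Finset.sum_add_distrib]
    exact Finset.sum_congr rfl (fun c _ => h1 c)
  rw [← Finset.mul_sum, sum_fib, hS, ← Finset.card_filter] at h2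
  change 2 * p = _ + (oddSet S m).card at h2
  omega

omit hS hSid in
theorem zero_mem_T : (0 : ZMod p × ZMod p) ∈ T := (hT 0).2 (Or.inl rfl)

omit hS hSid in
theorem fib_pos (m : Option (ZMod p)) : 1 ≤ fib T m 0 := by
  rw [fib, Nat.one_le_iff_ne_zero, Finset.card_ne_zero]
  refine ⟨0, ?_⟩
  rw [mem_filter]
  exact ⟨(hT 0).2 (Or.inl rfl), proj_zero m⟩

/-- the sum over all directions of `τ_m(0)` -/
theorem sum_tau : ∑ m : Option (ZMod p), fib T m 0 = 2 * p := by
  classical
  have hTcard : T.card = p := card_T S T hS hSid hT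
  have h0T := zero_mem_T S T hT
  have h1 : ∑ m : Option (ZMod p), fib T m 0 =
      ∑ t ∈ T, (univ.filter fun m : Option (ZMod p) => proj m t = 0).card := by
    simp only [fib, Finset.card_filter]
    rw [Finset.sum_comm]
  rw [h1, ← Finset.add_sum_erase T _ h0T]
  have h2 : (univ.filter fun m : Option (ZMod p) => proj m (0 : ZMod p × ZMod p) = 0).card =
      p + 1 := by
    rw [Finset.filter_true_of_mem (fun m _ => proj_zero m), Finset.card_univ,
      Fintype.card_option, ZMod.card]
  have h3 : ∀ t ∈ T.erase 0, (univ.filter fun m : Option (ZMod p) => proj m t = 0).card = 1 := by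
    intro t ht
    rw [mem_erase] at ht
    have : (univ.filter fun m : Option (ZMod p) => proj m t = 0) = {dir t} := by
      ext m
      simp only [mem_filter, mem_univ, true_and, mem_singleton]
      rw [dir_spec t ht.1 m]
      exact eq_comm
    rw [this, Finset.card_singleton]
  rw [h2, Finset.sum_congr rfl h3, Finset.sum_const, Finset.card_erase_of_mem h0T, hTcard]
  have := hp.out.two_le
  simp only [smul_eq_mul, mul_one]
  omega

end Sid2

end Pool.Agent.H47.Sidon
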