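import Mathlib
import Pool.Agent.H47.Sidon.Odd

set_option autoImplicit false

namespace Pool.Agent.H47.Sidon

open Finset Pool.Agent.H54.Sidon
open Pool.Agent.Results.MP_bd8c52_co.MomentCriterion (proj)

variable {p : ℕ} [hp : Fact p.Prime]

theorem proj_add (m : Option (ZMod p)) (x y : ZMod p × ZMod p) :
    proj m (x + y) = proj m x + proj m y := by
  rcases m with _ | m
  · simp [proj]
  · simp only [proj, Prod.fst_add, Prod.snd_add]; ring

theorem proj_smul (m : Option (ZMod p)) (c : ZMod p) (x : ZMod p × ZMod p) :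
    proj m (c • x) = c * proj m x := by
  rcases m with _ | m
  · simp [proj]
  · simp only [proj, Prod.smul_fst, Prod.smul_snd, smul_eq_mul]; ring

/-- the determinant -/
def det2 (v w : ZMod p × ZMod p) : ZMod p := v.1 * w.2 - v.2 * w.1

theorem proj_dir_iff (v w : ZMod p × ZMod p) (hv : v ≠ 0) :
    proj (dir v) w = 0 ↔ det2 v w = 0 := by
  unfold dir det2
  by_cases h : v.1 = 0
  · have h2 : v.2 ≠ 0 := fun h2 => hv (Prod.ext h h2)
    simp [h, proj, h2]
  · simp only [h, if_false, proj]
    rw [sub_eq_zero, sub_eq_zero, eq_comm, div_mul_eq_mul_div, div_eq_iff h, eq_comm,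
      mul_comm w.2]

theorem decomp (v w : ZMod p × ZMod p) (hD : det2 v w ≠ 0) (x : ZMod p × ZMod p) :
    x = (det2 x w / det2 v w) • v + (det2 v x / det2 v w) • w := by
  ext
  · simp only [Prod.fst_add, Prod.smul_fst, smul_eq_mul]
    rw [div_mul_eq_mul_div, div_mul_eq_mul_div, ← add_div, eq_div_iff hD]
    unfold det2
    ring
  · simp only [Prod.snd_add, Prod.smul_snd, smul_eq_mul]
    rw [div_mul_eq_mul_div, div_mul_eq_mul_div, ← add_div, eq_div_iff hD]
    unfold det2
    ring

/-- a multiple -/
theorem smul_of_det_zero (v w : ZMod p × ZMod p) (hv : v ≠ 0) (hD : det2 v w = 0) :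
    ∃ c : ZMod p, w = c • v := by
  unfold det2 at hD
  by_cases h : v.1 = 0
  · have h2 : v.2 ≠ 0 := fun h2 => hv (Prod.ext h h2)
    refine ⟨w.2 / v.2, Prod.ext ?_ ?_⟩
    · simp only [Prod.smul_fst, smul_eq_mul, h, mul_zero]
      rw [h, zero_mul, zero_sub, neg_eq_zero] at hD
      exact (mul_eq_zero.1 hD).resolve_left h2
    · simp only [Prod.smul_snd, smul_eq_mul]
      field_simp
  · refine ⟨w.1 / v.1, Prod.ext ?_ ?_⟩
    · simp only [Prod.smul_fst, smul_eq_mul]
      field_simp
    · simp only [Prod.smul_snd, smul_eq_mul]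
      field_simp
      linear_combination hD

/-- a linear map fixing two independent vectors is the identity -/
theorem id_of_fix (L : (ZMod p × ZMod p) →ₗ[ZMod p] (ZMod p × ZMod p)) (v w : ZMod p × ZMod p)
    (hD : det2 v w ≠ 0) (hv : L v = v) (hw : L w = w) (x : ZMod p × ZMod p) : L x = x := by
  conv_lhs => rw [decomp v w hD x]
  rw [map_add, map_smul, map_smul, hv, hw]
  exact (decomp v w hD x).symm

section Sid

variable (S T : Finset (ZMod p × ZMod p)) (hS : S.card = p)
  (hSid : ∀ a ∈ S, ∀ b ∈ S, ∀ c ∈ S, ∀ d ∈ S,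
      a + b = c + d → (a = c ∧ b = d) ∨ (a = d ∧ b = c))
  (hT : ∀ x, x ∈ T ↔ x = 0 ∨ ∀ a ∈ S, ∀ b ∈ S, a - b ≠ x)

include hS hSid hT

theorem fib_lt (hp2 : p ≠ 2) (m : Option (ZMod p)) (c : ZMod p) : fib S m c < p := by
  classical
  have htwo := hp.out.two_le
  have h0 := corr_zero S T hS hSid hT m
  by_contra hcon
  push Not at hcon
  have h1 : fib S m c * fib S m c ≤ ∑ c, fib S m c * fib S m c :=
    Finset.single_le_sum (f := fun c => fib S m c * fib S m c) (fun _ _ => Nat.zero_le _)
      (mem_univ c)
  have h2 : p * p ≤ fib S m c * fib S m c := Nat.mul_le_mul hcon hcon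
  have h3 : 3 ≤ p := by omega
  have h4 : 3 * p ≤ p * p := Nat.mul_le_mul_right p h3
  omega

/-- all lines of one direction meet `S` once: `T` is the line of that direction -/
theorem subgroup_of_fib_one (m : Option (ZMod p)) (h : ∀ c, fib S m c = 1) :
    ∃ H : AddSubgroup (ZMod p × ZMod p), ∀ x, x ∈ H ↔ x ∈ T := by
  classical
  have hTcard : T.card = p := card_T S T hS hSid hT
  have h0 := corr_zero S T hS hSid hT m
  simp only [h, mul_one, sum_const, card_univ, ZMod.card, smul_eq_mul] at h0
  have h1 : fib T m 0 = p := by omega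
  have h2 : (T.filter fun s => proj m s = 0) = T := by
    apply Finset.eq_of_subset_of_card_le (Finset.filter_subset _ _)
    change T.card ≤ fib T m 0
    rw [h1, hTcard]
  have h3 : ∀ t ∈ T, proj m t = 0 := by
    intro t ht
    rw [← h2, mem_filter] at ht
    exact ht.2
  have h4 : T = univ.filter fun x : ZMod p × ZMod p => proj m x = 0 := by
    apply Finset.eq_of_subset_of_card_le
    · intro t ht
      rw [mem_filter]
      exact ⟨mem_univ _, h3 t ht⟩
    · rw [card_fibre m 0, hTcard]
  refine ⟨{ carrier := {x | proj m x = 0}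
            add_mem' := ?_
            zero_mem' := proj_zero m
            neg_mem' := ?_ }, ?_⟩
  · intro a b ha hb
    change proj m (a + b) = 0
    have ha' : proj m a = 0 := ha
    have hb' : proj m b = 0 := hb
    rw [proj_add, ha', hb', add_zero]
  · intro a ha
    change proj m (-a) = 0
    have ha' : proj m a = 0 := ha
    rw [proj_neg, ha', neg_zero]
  · intro x
    rw [h4, mem_filter]
    exact ⟨fun h => ⟨mem_univ _, h⟩, fun h => h.2⟩

/-- The column lemma: `σ` preserves `S`, reflects the lines of one direction and acts on them by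
translations. -/
theorem column (hp2 : p ≠ 2) (m : Option (ZMod p)) (κ : ZMod p)
    (σ : Equiv.Perm (ZMod p × ZMod p)) (hσS : ∀ s ∈ S, σ s ∈ S)
    (hrefl : ∀ x, proj m (σ x) = 2 * κ - proj m x)
    (htr : ∀ x y, proj m x = proj m y → σ x - σ y = x - y) :
    ∃ H : AddSubgroup (ZMod p × ZMod p), ∀ x, x ∈ H ↔ x ∈ T := by
  classical
  have htwo := hp.out.two_le
  have h2ne : (2 : ZMod p) ≠ 0 := by
    intro h2
    have : ((2 : ℕ) : ZMod p) = 0 := by exact_mod_cast h2
    rw [ZMod.natCast_eq_zero_iff] at this
    exact hp2 ((Nat.prime_dvd_prime_iff_eq hp.out Nat.prime_two).1 this)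
  -- one point in each column other than `κ`
  have hle : ∀ c, c ≠ κ → fib S m c ≤ 1 := by
    intro c hc
    rw [fib, Finset.card_le_one]
    intro x hx y hy
    rw [mem_filter] at hx hy
    have h1 := htr x y (hx.2.trans hy.2.symm)
    have h2 : x + σ y = y + σ x := by
      have := sub_eq_sub_iff_add_eq_add.1 h1
      rw [add_comm y, this]
    rcases hSid x hx.1 (σ y) (hσS y hy.1) y hy.1 (σ x) (hσS x hx.1) h2 with h3 | h3
    · exact h3.1
    · exfalso
      have h4 := hrefl x
      rw [← h3.1, hx.2] at h4
      apply hc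
      have h5 : 2 * (c - κ) = 0 := by linear_combination h4
      exact sub_eq_zero.1 ((mul_eq_zero.1 h5).resolve_left h2ne)
  -- symmetry of the columns
  have hsym' : ∀ c, fib S m c ≤ fib S m (2 * κ - c) := by
    intro c
    apply Finset.card_le_card_of_injOn σ
    · intro x hx
      simp only [coe_filter, Set.mem_ofPred_eq] at hx ⊢
      exact ⟨hσS x hx.1, by rw [hrefl, hx.2]⟩
    · exact σ.injective.injOn
  have hsym : ∀ c, fib S m (2 * κ - c) = fib S m c := by
    intro c
    apply le_antisymm _ (hsym' c)
    have := hsym' (2 * κ - c)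
    rwa [sub_sub_cancel] at this
  -- closure of the empty columns
  have hclos : ∀ a b, a ≠ b → a ≠ κ → b ≠ κ → fib S m a = 0 → fib S m b = 0 →
      fib S m (κ + (a - b)) = 0 := by
    intro a b hab ha hb hfa hfb
    by_contra hne
    have hd : a - b ≠ 0 := sub_ne_zero.2 hab
    set d := a - b with hdd
    have hκd : κ + d ≠ κ := fun h => hd (by simpa using h)
    have h1 : fib S m (κ + d) = 1 := by
      have := hle _ hκd
      omega
    have h2 : fib S m (κ - d) = 1 := by
      rw [← hsym, show 2 * κ - (κ - d) = κ + d by ring, h1]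
    have hcorr := corr_ne S T hSid hT m d hd
    -- integer computation
    have hint : ∑ c : ZMod p, (((fib S m (c + d) : ℤ) - 1) * ((fib S m c : ℤ) - 1)) =
        (∑ c, fib S m (c + d) * fib S m c : ℕ) - (p : ℤ) := by
      have e1 : ∀ c : ZMod p, (((fib S m (c + d) : ℤ) - 1) * ((fib S m c : ℤ) - 1)) =
          ((fib S m (c + d) * fib S m c : ℕ) : ℤ) - (fib S m (c + d) : ℤ) - (fib S m c : ℤ) + 1 := by
        intro c; push_cast; ring
      simp only [e1]
      rw [Finset.sum_add_distrib, Finset.sum_sub_distrib, Finset.sum_sub_distrib]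
      have e2 : ∑ c : ZMod p, (fib S m c : ℤ) = p := by
        rw [← Nat.cast_sum, sum_fib, hS]
      have e3 : ∑ c : ZMod p, (fib S m (c + d) : ℤ) = p := by
        rw [← e2]
        exact Equiv.sum_comp (Equiv.addRight d) (fun c => (fib S m c : ℤ))
      rw [e2, e3]
      simp [ZMod.card]
    have hpos : (1 : ℤ) ≤ ∑ c : ZMod p, (((fib S m (c + d) : ℤ) - 1) * ((fib S m c : ℤ) - 1)) := by
      have hnn : ∀ c ∈ (univ : Finset (ZMod p)),
          (0 : ℤ) ≤ (((fib S m (c + d) : ℤ) - 1) * ((fib S m c : ℤ) - 1)) := by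
        intro c _
        by_cases hc : c = κ
        · rw [hc, h1]; simp
        · by_cases hcd : c + d = κ
          · have : c = κ - d := by rw [← hcd]; ring
            rw [this, h2]; simp
          · have e1 := hle c hc
            have e2 := hle (c + d) hcd
            interval_cases fib S m c <;> interval_cases fib S m (c + d) <;> simp
      have h3 := Finset.single_le_sum hnn (mem_univ b)
      have h4 : b + d = a := by rw [hdd]; ring
      rw [h4, hfa, hfb] at h3
      simpa using h3
    rw [hint] at hpos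
    have h5 : ((∑ c, fib S m (c + d) * fib S m c : ℕ) : ℤ) + (fib T m d : ℤ) = p := by
      exact_mod_cast hcorr
    have h6 : (0 : ℤ) ≤ (fib T m d : ℤ) := Int.natCast_nonneg _
    linarith
  -- the subgroup of the empty columns
  let H0 : AddSubgroup (ZMod p) := AddSubgroup.ofSub {x | x = 0 ∨ (x ≠ 0 ∧ fib S m (κ + x) = 0)}
    ⟨0, Or.inl rfl⟩ (by
      intro x hx y hy
      have hyneg : -y = 0 ∨ (-y ≠ 0 ∧ fib S m (κ + -y) = 0) := by
        rcases hy with h | h
        · left; rw [h, neg_zero]
        · right
          refine ⟨neg_ne_zero.2 h.1, ?_⟩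
          rw [← hsym, show 2 * κ - (κ + -y) = κ + y by ring]
          exact h.2
      by_cases hxy : x + -y = 0
      · exact Or.inl hxy
      right
      refine ⟨hxy, ?_⟩
      rcases hx with hx | hx
      · rw [hx, zero_add] at hxy ⊢
        rcases hyneg with h | h
        · exact absurd h hxy
        · exact h.2
      · rcases hy with hy | hy
        · rw [hy, neg_zero, add_zero]; exact hx.2
        · have := hclos (κ + x) (κ + y) (fun h => hxy (by
            have := add_left_cancel h
            rw [this]; ring)) (fun h => hx.1 (by simpa using h)) (fun h => hy.1 (by simpa using h))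
            hx.2 hy.2
          rw [show κ + x - (κ + y) = x + -y by ring] at this
          exact this)
  have hH0 : ∀ x, x ∈ H0 ↔ (x = 0 ∨ (x ≠ 0 ∧ fib S m (κ + x) = 0)) := fun x => Iff.rfl
  have hsum := sum_fib S m
  rw [hS] at hsum
  haveI : Fact (Nat.card (ZMod p)).Prime := ⟨by rw [Nat.card_zmod]; exact hp.out⟩
  have hbt : H0 = ⊥ ∨ H0 = ⊤ := H0.eq_bot_or_eq_top_of_prime_card
  rcases hbt with h | h
  · -- no empty column
    have hone : ∀ c, c ≠ κ → fib S m c = 1 := by
      intro c hc
      have h1 : ¬ (c - κ ∈ H0) := by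
        rw [h, AddSubgroup.mem_bot]
        exact sub_ne_zero.2 hc
      rw [hH0] at h1
      push Not at h1
      have h2 := h1.2 h1.1
      rw [show κ + (c - κ) = c by ring] at h2
      have := hle c hc
      omega
    have hκ : fib S m κ = 1 := by
      rw [← Finset.add_sum_erase _ _ (mem_univ κ)] at hsum
      rw [Finset.sum_congr rfl (g := fun _ => 1)
        (fun c hc => hone c (Finset.ne_of_mem_erase hc))] at hsum
      simp only [sum_const, smul_eq_mul, mul_one] at hsum
      rw [Finset.card_erase_of_mem (mem_univ κ), Finset.card_univ, ZMod.card] at hsum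
      omega
    apply subgroup_of_fib_one S T hS hSid hT m
    intro c
    by_cases hc : c = κ
    · rw [hc, hκ]
    · exact hone c hc
  · -- all other columns empty
    exfalso
    have hz : ∀ c, c ≠ κ → fib S m c = 0 := by
      intro c hc
      have h1 : c - κ ∈ H0 := by rw [h]; exact AddSubgroup.mem_top _
      rw [hH0] at h1
      rcases h1 with h1 | h1
      · exact absurd (sub_eq_zero.1 h1) hc
      · rw [show κ + (c - κ) = c by ring] at h1
        exact h1.2
    rw [Finset.sum_eq_single κ (fun c _ hc => hz c hc) (fun h => absurd (mem_univ _) h)] at hsum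
    have := fib_lt S T hS hSid hT hp2 m κ
    omega

end Sid

end Pool.Agent.H47.Sidon
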