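import Mathlib
import Pool.Agent.H47.Sidon.Sym

set_option autoImplicit false

namespace Pool.Agent.H47.Sidon

open Finset Pool.Agent.H54.Sidon
open Pool.Agent.Results.MP_bd8c52_co.MomentCriterion (proj)

variable {p : ℕ} [hp : Fact p.Prime]

/-- `σ` is an affine bijection of the plane -/
def IsAff (σ : Equiv.Perm (ZMod p × ZMod p)) : Prop :=
  ∃ (L : (ZMod p × ZMod p) →ₗ[ZMod p] (ZMod p × ZMod p)) (w : ZMod p × ZMod p),
    ∀ x, σ x = L x + w

theorem isAff_one : IsAff (1 : Equiv.Perm (ZMod p × ZMod p)) :=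
  ⟨LinearMap.id, 0, fun x => by simp⟩

theorem IsAff.mul {σ τ : Equiv.Perm (ZMod p × ZMod p)} (hσ : IsAff σ) (hτ : IsAff τ) :
    IsAff (σ * τ) := by
  obtain ⟨L, w, h⟩ := hσ
  obtain ⟨L', w', h'⟩ := hτ
  refine ⟨L.comp L', L w' + w, fun x => ?_⟩
  rw [Equiv.Perm.mul_apply, h', h, map_add, LinearMap.comp_apply, add_assoc]

theorem IsAff.pow {σ : Equiv.Perm (ZMod p × ZMod p)} (hσ : IsAff σ) (k : ℕ) : IsAff (σ ^ k) := by
  induction k with
  | zero => rw [pow_zero]; exact isAff_one
  | succ k ih => rw [pow_succ]; exact ih.mul hσ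

theorem two_ne (hp2 : p ≠ 2) : (2 : ZMod p) ≠ 0 := by
  intro h2
  have : ((2 : ℕ) : ZMod p) = 0 := by exact_mod_cast h2
  rw [ZMod.natCast_eq_zero_iff] at this
  exact hp2 ((Nat.prime_dvd_prime_iff_eq hp.out Nat.prime_two).1 this)

theorem det_ne_of_proj (v w : ZMod p × ZMod p) (hv : v ≠ 0) (h : proj (dir v) w ≠ 0) :
    det2 v w ≠ 0 := fun h2 => h ((proj_dir_iff v w hv).2 h2)

theorem smul_of_proj (v w : ZMod p × ZMod p) (hv : v ≠ 0) (h : proj (dir v) w = 0) :
    ∃ c : ZMod p, w = c • v := smul_of_det_zero v w hv ((proj_dir_iff v w hv).1 h)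

theorem proj_dir_self (v : ZMod p × ZMod p) (hv : v ≠ 0) : proj (dir v) v = 0 := by
  rw [proj_dir_iff v v hv]; unfold det2; ring

theorem exists_proj_one (m : Option (ZMod p)) : ∃ e : ZMod p × ZMod p, proj m e = 1 := by
  rcases m with _ | m
  · exact ⟨(1, 0), rfl⟩
  · exact ⟨(0, 1), by simp [proj]⟩

/-- a linear map fixing the direction `m` acts on the lines of this direction by a scalar -/
theorem exists_scalar (L : (ZMod p × ZMod p) →ₗ[ZMod p] (ZMod p × ZMod p)) (v : ZMod p × ZMod p)
    (hv : v ≠ 0) (hL : L v = v) : ∃ l : ZMod p, ∀ x, proj (dir v) (L x) = l * proj (dir v) x := by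
  obtain ⟨e, he⟩ := exists_proj_one (p := p) (dir v)
  refine ⟨proj (dir v) (L e), fun x => ?_⟩
  have h1 : proj (dir v) (x - proj (dir v) x • e) = 0 := by
    rw [proj_sub, proj_smul, he, mul_one, sub_self]
  obtain ⟨c, hc⟩ := smul_of_proj v _ hv h1
  have h2 : x = proj (dir v) x • e + c • v := by rw [← hc]; abel
  conv_lhs => rw [h2]
  rw [map_add, map_smul, map_smul, hL, proj_add, proj_smul, proj_smul, proj_dir_self v hv,
    mul_zero, add_zero, mul_comm]

section Sid

variable (S T : Finset (ZMod p × ZMod p)) (hS : S.card = p)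
  (hSid : ∀ a ∈ S, ∀ b ∈ S, ∀ c ∈ S, ∀ d ∈ S,
      a + b = c + d → (a = c ∧ b = d) ∨ (a = d ∧ b = c))
  (hT : ∀ x, x ∈ T ↔ x = 0 ∨ ∀ a ∈ S, ∀ b ∈ S, a - b ≠ x)

include hS hSid hT

/-- `S` is not contained in a line -/
theorem exists_off (hp2 : p ≠ 2) (m : Option (ZMod p)) (c : ZMod p) : ∃ s ∈ S, proj m s ≠ c := by
  classical
  by_contra hcon
  push Not at hcon
  have h1 : (S.filter fun s => proj m s = c) = S := Finset.filter_true_of_mem hcon
  have h2 := fib_lt S T hS hSid hT hp2 m c
  rw [fib, h1] at h2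
  omega

theorem eq_one_of_fix (hp2 : p ≠ 2) (σ : Equiv.Perm (ZMod p × ZMod p)) (hσ : IsAff σ)
    (hfix : ∀ s ∈ S, σ s = s) : σ = 1 := by
  classical
  obtain ⟨L, w, h⟩ := hσ
  have htwo := hp.out.two_le
  obtain ⟨a, ha, b, hb, hab⟩ := Finset.one_lt_card.1 (show 1 < S.card by omega)
  have hv : b - a ≠ 0 := sub_ne_zero.2 (Ne.symm hab)
  have hLv : L (b - a) = b - a := by
    have h1 := hfix a ha
    have h2 := hfix b hb
    rw [h] at h1 h2
    rw [map_sub]
    calc L b - L a = (L b + w) - (L a + w) := by abel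
      _ = b - a := by rw [h1, h2]
  obtain ⟨c, hc, hcc⟩ := exists_off S T hS hSid hT hp2 (dir (b - a)) (proj (dir (b - a)) a)
  have hLc : L (c - a) = c - a := by
    have h1 := hfix a ha
    have h2 := hfix c hc
    rw [h] at h1 h2
    rw [map_sub]
    calc L c - L a = (L c + w) - (L a + w) := by abel
      _ = c - a := by rw [h1, h2]
  have hD : det2 (b - a) (c - a) ≠ 0 := by
    apply det_ne_of_proj _ _ hv
    rw [proj_sub]
    exact sub_ne_zero.2 hcc
  have hid := id_of_fix L _ _ hD hLv hLc
  have hw : w = 0 := by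
    have h1 := hfix a ha
    rw [h, hid] at h1
    simpa using h1
  apply Equiv.ext
  intro x
  rw [h, hid, hw, add_zero]
  rfl

/-- an affine involution preserving `S` : `T` is a subgroup -/
theorem invol (hp2 : p ≠ 2) (σ : Equiv.Perm (ZMod p × ZMod p)) (hσ : IsAff σ)
    (hσS : ∀ s ∈ S, σ s ∈ S) (h2 : σ ^ 2 = 1) (h1 : σ ≠ 1) :
    ∃ H : AddSubgroup (ZMod p × ZMod p), ∀ x, x ∈ H ↔ x ∈ T := by
  classical
  have h2ne := two_ne (p := p) hp2
  have htwo := hp.out.two_le
  obtain ⟨L, w, h⟩ := hσ
  have hσσ : ∀ x, σ (σ x) = x := by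
    intro x
    have := congrArg (fun f : Equiv.Perm (ZMod p × ZMod p) => f x) h2
    simpa [pow_two] using this
  have hw : L w + w = 0 := by
    have := hσσ 0
    rw [h, h, map_zero, zero_add] at this
    exact this
  have hLL : ∀ x, L (L x) = x := by
    intro x
    have := hσσ x
    rw [h, h, map_add, add_assoc, hw, add_zero] at this
    exact this
  by_cases hc : ∀ x, L x = -x
  · -- central symmetry
    exfalso
    have hsum : ∀ s, s + σ s = w := by intro s; rw [h, hc]; abel
    obtain ⟨a, ha, b, hb, c, hc', hab, hac, hbc⟩ :=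
      Finset.two_lt_card.1 (show 2 < S.card by omega)
    have e1 := hSid a ha (σ a) (hσS a ha) b hb (σ b) (hσS b hb) (by rw [hsum, hsum])
    have e2 := hSid a ha (σ a) (hσS a ha) c hc' (σ c) (hσS c hc') (by rw [hsum, hsum])
    rcases e1 with e1 | e1
    · exact hab e1.1
    · rcases e2 with e2 | e2
      · exact hac e2.1
      · apply hbc
        apply σ.injective
        rw [← e1.1, ← e2.1]
  · push Not at hc
    obtain ⟨x0, hx0⟩ := hc
    set v : ZMod p × ZMod p := x0 + L x0 with hv
    have hv0 : v ≠ 0 := by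
      intro h0
      apply hx0
      rw [hv] at h0
      exact (neg_eq_of_add_eq_zero_right h0).symm
    have hLv : L v = v := by rw [hv, map_add, hLL, add_comm]
    have hfixed : ∀ y, L y = y → proj (dir v) y = 0 := by
      intro y hy
      by_contra hne
      have hid := id_of_fix L v y (det_ne_of_proj v y hv0 hne) hLv hy
      have hw2 : w = 0 := by
        rw [hid] at hw
        have : (2 : ZMod p) • w = 0 := by rw [two_smul]; exact hw
        exact (smul_eq_zero.1 this).resolve_left h2ne
      apply h1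
      apply Equiv.ext
      intro x
      rw [h, hid, hw2, add_zero]
      rfl
    have hanti : ∀ y, proj (dir v) (L y) = - proj (dir v) y := by
      intro y
      have := hfixed (y + L y) (by rw [map_add, hLL, add_comm])
      rw [proj_add] at this
      linear_combination this
    apply column S T hS hSid hT hp2 (dir v) (proj (dir v) w / 2) σ hσS
    · intro x
      rw [h, proj_add, hanti]
      field_simp
      ring
    · intro x y hxy
      have h3 : proj (dir v) (x - y) = 0 := by rw [proj_sub, hxy, sub_self]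
      obtain ⟨c, hc⟩ := smul_of_proj v _ hv0 h3
      rw [h, h]
      calc L x + w - (L y + w) = L (x - y) := by rw [map_sub]; abel
        _ = x - y := by rw [hc, map_smul, hLv]

/-- an affine map of order `p` preserving `S` : `T` is a subgroup -/
theorem order_p (hp2 : p ≠ 2) (σ : Equiv.Perm (ZMod p × ZMod p)) (hσ : IsAff σ)
    (hσS : ∀ s ∈ S, σ s ∈ S) (h2 : σ ^ p = 1) (h1 : σ ≠ 1) :
    ∃ H : AddSubgroup (ZMod p × ZMod p), ∀ x, x ∈ H ↔ x ∈ T := by
  classical
  have htwo := hp.out.two_le
  have hσ' := hσ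
  obtain ⟨L, w, h⟩ := hσ
  -- powers
  have hpow : ∀ (k : ℕ) (x y : ZMod p × ZMod p), (σ ^ k) x - (σ ^ k) y = (L ^ k) (x - y) := by
    intro k
    induction k with
    | zero => intro x y; simp
    | succ k ih =>
      intro x y
      rw [pow_succ, pow_succ, Equiv.Perm.mul_apply, Equiv.Perm.mul_apply, ih, h, h,
        Module.End.mul_apply]
      congr 1
      rw [map_sub]; abel
  have hLp : ∀ x, (L ^ p) x = x := by
    intro x
    have := hpow p x 0
    rw [h2] at this
    simpa using this.symm
  -- `L` as a permutation, of order dividing `p`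
  have hLinj : Function.Injective L := by
    intro x y hxy
    have h3 : σ x = σ y := by rw [h, h, hxy]
    exact σ.injective h3
  set Λ : Equiv.Perm (ZMod p × ZMod p) :=
    Equiv.ofBijective L (Finite.injective_iff_bijective.1 hLinj) with hΛ
  have hΛk : ∀ (k : ℕ) x, (Λ ^ k) x = (L ^ k) x := by
    intro k
    induction k with
    | zero => intro x; simp
    | succ k ih =>
      intro x
      rw [pow_succ, pow_succ, Equiv.Perm.mul_apply, Module.End.mul_apply, ih]
      rfl
  have hΛp : Λ ^ p ^ 1 = 1 := by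
    apply Equiv.ext
    intro x
    rw [pow_one, hΛk, hLp]
    rfl
  obtain ⟨v, hLv, hv⟩ := Equiv.Perm.exists_fixed_point_of_prime'
    (α := ZMod p × ZMod p) (p := p) (n := 1)
    (by rw [Fintype.card_prod, ZMod.card]; exact Dvd.intro _ rfl) hΛp (a := 0) (map_zero L)
  have hLv' : L v = v := hLv
  obtain ⟨l, hl⟩ := exists_scalar L v hv hLv'
  have hlk : ∀ (k : ℕ) x, proj (dir v) ((L ^ k) x) = l ^ k * proj (dir v) x := by
    intro k
    induction k with
    | zero => intro x; simp
    | succ k ih =>
      intro x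
      rw [pow_succ, Module.End.mul_apply, ih, hl, pow_succ]
      ring
  have hl1 : l = 1 := by
    obtain ⟨e, he⟩ := exists_proj_one (p := p) (dir v)
    have h3 := hlk p e
    rw [hLp, he, mul_one, ZMod.pow_card] at h3
    exact h3.symm
  set κ := proj (dir v) w with hκ
  have hmove : ∀ x, proj (dir v) (σ x) = proj (dir v) x + κ := by
    intro x
    rw [h, proj_add, hl, hl1, one_mul]
  by_cases hκ0 : κ = 0
  · -- columns preserved
    exfalso
    apply h1
    apply eq_one_of_fix S T hS hSid hT hp2 σ hσ'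
    intro s hs
    have h3 : proj (dir v) (σ s - s) = 0 := by rw [proj_sub, hmove, hκ0, add_zero, sub_self]
    obtain ⟨c, hc⟩ := smul_of_proj v _ hv h3
    have h4 : σ (σ s) - σ s = σ s - s := by
      rw [h (σ s), h s]
      calc L (L s + w) + w - (L s + w) = L ((L s + w) - s) := by rw [map_sub]; abel
        _ = (L s + w) - s := by
            rw [h s] at hc
            rw [hc, map_smul, hLv']
    have h5 : σ s + σ s = σ (σ s) + s := by
      have := sub_eq_sub_iff_add_eq_add.1 h4
      exact this.symm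
    rcases hSid _ (hσS s hs) _ (hσS s hs) _ (hσS _ (hσS s hs)) _ hs h5 with h6 | h6
    · exact h6.2
    · exact h6.1
  · -- columns moved
    have hle : ∀ c ∈ (univ : Finset (ZMod p)), fib S (dir v) c ≤ fib S (dir v) (c + κ) := by
      intro c _
      apply Finset.card_le_card_of_injOn σ
      · intro x hx
        simp only [coe_filter, Set.mem_ofPred_eq] at hx ⊢
        exact ⟨hσS x hx.1, by rw [hmove, hx.2]⟩
      · exact σ.injective.injOn
    have hsum : ∑ c, fib S (dir v) c = ∑ c, fib S (dir v) (c + κ) :=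
      (Equiv.sum_comp (Equiv.addRight κ) (fun c => fib S (dir v) c)).symm
    have heq := (Finset.sum_eq_sum_iff_of_le hle).1 hsum
    have hconst : ∀ (k : ℕ) c, fib S (dir v) (c + k * κ) = fib S (dir v) c := by
      intro k
      induction k with
      | zero => intro c; simp
      | succ k ih =>
        intro c
        rw [← ih c, heq (c + k * κ) (mem_univ _)]
        congr 1
        push_cast
        ring
    have hall : ∀ c, fib S (dir v) c = fib S (dir v) 0 := by
      intro c
      have h3 := hconst (c / κ).val 0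
      rw [ZMod.natCast_val, ZMod.cast_id', id_eq, div_mul_cancel₀ _ hκ0, zero_add] at h3
      exact h3
    have h4 := sum_fib S (dir v)
    rw [hS] at h4
    simp only [hall, sum_const, card_univ, ZMod.card, smul_eq_mul] at h4
    have h5 : fib S (dir v) 0 = 1 := by
      have : p * fib S (dir v) 0 = p * 1 := by rw [mul_one]; exact h4
      exact Nat.eq_of_mul_eq_mul_left hp.out.pos this
    exact subgroup_of_fib_one S T hS hSid hT (dir v) (fun c => (hall c).trans h5)

end Sid

end Pool.Agent.H47.Sidon
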