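import Mathlib
import Pool.Agent.H47.Sidon.Sym2

set_option autoImplicit false

namespace Pool.Agent.H47.Sidon

open Finset Pool.Agent.H54.Sidon
open Pool.Agent.Results.MP_bd8c52_co.MomentCriterion (proj)

variable {p : ℕ} [hp : Fact p.Prime]

theorem zmod3 : ∀ l : ZMod 3, l ≠ 0 → l ≠ 1 → l = -1 := by decide

theorem scalar_of_eigen (L : (ZMod p × ZMod p) →ₗ[ZMod p] (ZMod p × ZMod p)) (l : ZMod p)
    (v w : ZMod p × ZMod p) (hD : det2 v w ≠ 0) (hv : L v = l • v) (hw : L w = l • w)
    (x : ZMod p × ZMod p) : L x = l • x := by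
  conv_lhs => rw [decomp v w hD x]
  rw [map_add, map_smul, map_smul, hv, hw]
  conv_rhs => rw [decomp v w hD x]
  rw [smul_add, smul_comm l, smul_comm l]

theorem sum_fib_nat (S : Finset (ZMod p × ZMod p)) (m : Option (ZMod p)) (g : ZMod p → ℕ) :
    ∑ s ∈ S, g (proj m s) = ∑ c, fib S m c * g c := by
  classical
  rw [← Finset.sum_fiberwise S (proj m)]
  apply Finset.sum_congr rfl
  intro d _
  rw [fib, ← smul_eq_mul]
  apply Finset.sum_eq_card_nsmul
  intro t ht
  rw [(mem_filter.1 ht).2]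

theorem aff_pow_sub (L : (ZMod p × ZMod p) →ₗ[ZMod p] (ZMod p × ZMod p))
    (w : ZMod p × ZMod p) (σ : Equiv.Perm (ZMod p × ZMod p)) (h : ∀ x, σ x = L x + w)
    (k : ℕ) : ∀ x y : ZMod p × ZMod p, (σ ^ k) x - (σ ^ k) y = (L ^ k) (x - y) := by
  induction k with
  | zero => intro x y; simp
  | succ k ih =>
    intro x y
    rw [pow_succ, pow_succ, Equiv.Perm.mul_apply, Equiv.Perm.mul_apply, ih, h, h,
      Module.End.mul_apply]
    congr 1
    rw [map_sub]; abel

section Sid

variable (S T : Finset (ZMod p × ZMod p)) (hS : S.card = p)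
  (hSid : ∀ a ∈ S, ∀ b ∈ S, ∀ c ∈ S, ∀ d ∈ S,
      a + b = c + d → (a = c ∧ b = d) ∨ (a = d ∧ b = c))
  (hT : ∀ x, x ∈ T ↔ x = 0 ∨ ∀ a ∈ S, ∀ b ∈ S, a - b ≠ x)

include hS hSid hT

/-- no affine map of prime order `r ≠ 2, p` with two fixed points preserves `S` -/
theorem no_homology (hp2 : p ≠ 2) (σ : Equiv.Perm (ZMod p × ZMod p)) (hσ : IsAff σ)
    (hσS : ∀ s ∈ S, σ s ∈ S) (r : ℕ) (hr : r.Prime) (hr2 : r ≠ 2) (hrp : r ≠ p)
    (h2 : σ ^ r = 1) (h1 : σ ≠ 1) (x0 x1 : ZMod p × ZMod p) (hx : x1 ≠ x0) (hx0 : σ x0 = x0)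
    (hx1 : σ x1 = x1) : False := by
  classical
  have htwo := hp.out.two_le
  obtain ⟨L, w, h⟩ := hσ
  have hpow := aff_pow_sub L w σ h
  have hLr : ∀ x, (L ^ r) x = x := by
    intro x
    have := hpow r x 0
    rw [h2] at this
    simpa using this.symm
  have hLd : ∀ x y, σ x - σ y = L (x - y) := by
    intro x y; rw [h, h, map_sub]; abel
  set v := x1 - x0 with hv
  have hv0 : v ≠ 0 := sub_ne_zero.2 hx
  have hLv : L v = v := by rw [hv, ← hLd, hx0, hx1]
  obtain ⟨l, hl⟩ := exists_scalar L v hv0 hLv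
  have hlk : ∀ (k : ℕ) x, proj (dir v) ((L ^ k) x) = l ^ k * proj (dir v) x := by
    intro k
    induction k with
    | zero => intro x; simp
    | succ k ih =>
      intro x
      rw [pow_succ, Module.End.mul_apply, ih, hl, pow_succ]
      ring
  have hlr : l ^ r = 1 := by
    obtain ⟨e, he⟩ := exists_proj_one (p := p) (dir v)
    have h3 := hlk r e
    rw [hLr, he, mul_one] at h3
    exact h3.symm
  have hrne : (r : ZMod p) ≠ 0 := by
    intro h0
    rw [ZMod.natCast_eq_zero_iff] at h0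
    exact hrp ((Nat.prime_dvd_prime_iff_eq hp.out hr).1 h0).symm
  have hl1 : l ≠ 1 := by
    intro hl1
    have hN : ∀ x, L (L x - x) = L x - x := by
      intro x
      have h3 : proj (dir v) (L x - x) = 0 := by rw [proj_sub, hl, hl1, one_mul, sub_self]
      obtain ⟨c, hc⟩ := smul_of_proj v _ hv0 h3
      rw [hc, map_smul, hLv]
    have hNk : ∀ (k : ℕ) x, (L ^ k) x = x + (k : ZMod p) • (L x - x) := by
      intro k
      induction k with
      | zero => intro x; simp
      | succ k ih =>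
        intro x
        rw [pow_succ', Module.End.mul_apply, ih, map_add, map_smul, hN]
        push_cast
        rw [add_smul, one_smul]
        abel
    have hid : ∀ x, L x = x := by
      intro x
      have h3 := hNk r x
      rw [hLr] at h3
      have h4 : (r : ZMod p) • (L x - x) = 0 := by
        have : x + (r : ZMod p) • (L x - x) = x + 0 := by rw [← h3, add_zero]
        exact add_left_cancel this
      exact sub_eq_zero.1 ((smul_eq_zero.1 h4).resolve_left hrne)
    have hw0 : w = 0 := by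
      rw [h, hid] at hx0
      simpa using hx0
    apply h1
    apply Equiv.ext
    intro x
    rw [h, hid, hw0, add_zero]
    rfl
  have hr_odd : Odd r := hr.odd_of_ne_two hr2
  have hlm1 : l ≠ -1 := by
    intro hlm
    rw [hlm, hr_odd.neg_one_pow] at hlr
    have : (2 : ZMod p) = 0 := by linear_combination -hlr
    exact two_ne hp2 this
  have hl0 : l ≠ 0 := by
    rintro rfl
    rw [zero_pow hr.ne_zero] at hlr
    exact zero_ne_one hlr
  set m := dir v with hm
  set c0 := proj m x0 with hc0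
  -- the vector `σ s - s`
  have hu : ∀ s, L (σ s - s) = l • (σ s - s) := by
    intro s
    have e1 : σ s - s = L (s - x0) - (s - x0) := by
      have := hLd s x0
      rw [hx0] at this
      rw [← this]; abel
    have h3 : proj m (L (s - x0) - l • (s - x0)) = 0 := by
      rw [proj_sub, hl, proj_smul, sub_self]
    obtain ⟨c, hc⟩ := smul_of_proj v _ hv0 h3
    have e2 : L (s - x0) = l • (s - x0) + c • v := by rw [← hc]; abel
    have e3 : L (L (s - x0)) = l • L (s - x0) + c • v := by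
      conv_lhs => rw [e2]
      rw [map_add, map_smul, map_smul, hLv]
    rw [e1, map_sub, e3, ← hc]
    module
  have hproju : ∀ s, proj m (σ s - s) = (l - 1) * (proj m s - c0) := by
    intro s
    have := hLd s x0
    rw [hx0] at this
    have e1 : σ s - s = L (s - x0) - (s - x0) := by rw [← this]; abel
    rw [e1, proj_sub, hl, proj_sub]
    ring
  obtain ⟨s', hs', hs'c⟩ := exists_off S T hS hSid hT hp2 m c0
  set u := σ s' - s' with hu'
  have hu0 : u ≠ 0 := by
    intro h0
    have := hproju s'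
    rw [← hu', h0, proj_zero] at this
    rcases mul_eq_zero.1 this.symm with h3 | h3
    · exact hl1 (sub_eq_zero.1 h3)
    · exact hs'c (sub_eq_zero.1 h3)
  have hpar : ∀ s, proj (dir u) (σ s - s) = 0 := by
    intro s
    by_contra hne
    have hD := det_ne_of_proj u _ hu0 hne
    have hsc := scalar_of_eigen L l u _ hD (hu s') (hu s) v
    rw [hLv] at hsc
    have h3 : (l - 1) • v = 0 := by rw [sub_smul, one_smul, ← hsc, sub_self]
    rcases smul_eq_zero.1 h3 with h4 | h4
    · exact hl1 (sub_eq_zero.1 h4)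
    · exact hv0 h4
  have hpar' : ∀ s, proj (dir u) (σ s) = proj (dir u) s := by
    intro s
    have := hpar s
    rw [proj_sub] at this
    exact sub_eq_zero.1 this
  -- three points on the line
  have hthree : ∀ s ∈ S, proj m s ≠ c0 → 3 ≤ fib S (dir u) (proj (dir u) s) := by
    intro s hs hsc
    have hus : σ s - s ≠ 0 := by
      intro h0
      have := hproju s
      rw [h0, proj_zero] at this
      rcases mul_eq_zero.1 this.symm with h3 | h3
      · exact hl1 (sub_eq_zero.1 h3)
      · exact hsc (sub_eq_zero.1 h3)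
    have h12 : s ≠ σ s := fun h0 => hus (sub_eq_zero.2 h0.symm)
    have h23 : σ s ≠ σ (σ s) := fun h0 => h12 (σ.injective h0)
    have h13 : s ≠ σ (σ s) := by
      intro h0
      have e1 : σ (σ s) - σ s = l • (σ s - s) := by rw [hLd, hu]
      rw [← h0] at e1
      have e2 : (l + 1) • (σ s - s) = 0 := by
        rw [add_smul, one_smul, ← e1]; abel
      rcases smul_eq_zero.1 e2 with h3 | h3
      · exact hlm1 (eq_neg_of_add_eq_zero_left h3)
      · exact hus h3
    have hsub : ({s, σ s, σ (σ s)} : Finset (ZMod p × ZMod p)) ⊆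
        S.filter fun x => proj (dir u) x = proj (dir u) s := by
      intro x hx
      simp only [mem_insert, mem_singleton] at hx
      rw [mem_filter]
      rcases hx with rfl | rfl | rfl
      · exact ⟨hs, rfl⟩
      · exact ⟨hσS _ hs, hpar' _⟩
      · exact ⟨hσS _ (hσS _ hs), (hpar' _).trans (hpar' _)⟩
    have hcard : ({s, σ s, σ (σ s)} : Finset (ZMod p × ZMod p)).card = 3 := by
      rw [Finset.card_eq_three]
      exact ⟨_, _, _, h12, h13, h23, rfl⟩
    rw [← hcard]
    exact Finset.card_le_card hsub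
  -- counting in the direction `dir u`
  have hcount := sum_fib_nat S (dir u) (fun c => fib S (dir u) c)
  have hz := corr_zero S T hS hSid hT (dir u)
  have hpos := fib_pos S T hT (dir u)
  have hlow : ∑ s ∈ S, (1 + 2 * (if proj m s ≠ c0 then 1 else 0)) ≤
      ∑ s ∈ S, fib S (dir u) (proj (dir u) s) := by
    apply Finset.sum_le_sum
    intro s hs
    by_cases hsc : proj m s ≠ c0
    · have := hthree s hs hsc
      simp only [hsc, ne_eq, not_false_eq_true, if_true]
      omega
    · simp only [hsc, if_false, mul_zero, add_zero]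
      rw [fib, Nat.one_le_iff_ne_zero, Finset.card_ne_zero]
      exact ⟨s, by rw [mem_filter]; exact ⟨hs, rfl⟩⟩
  rw [Finset.sum_add_distrib, ← Finset.mul_sum, ← Finset.card_filter] at hlow
  simp only [sum_const, smul_eq_mul, mul_one] at hlow
  have hsplit : fib S m c0 + (S.filter fun s => proj m s ≠ c0).card = p := by
    rw [fib]
    have := Finset.card_filter_add_card_filter_not (s := S) (fun s => proj m s = c0)
    exact this.trans hS
  -- counting in the direction `m`
  have hz2 := corr_zero S T hS hSid hT m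
  have hpos2 := fib_pos S T hT m
  have hsum2 := sum_fib S m
  rw [hS] at hsum2
  have hsq : fib S m c0 * fib S m c0 + (p - fib S m c0) ≤ ∑ c, fib S m c * fib S m c := by
    rw [← Finset.add_sum_erase _ _ (mem_univ c0)]
    rw [← Finset.add_sum_erase _ _ (mem_univ c0)] at hsum2
    have h3 : ∑ c ∈ univ.erase c0, fib S m c ≤ ∑ c ∈ univ.erase c0, fib S m c * fib S m c :=
      Finset.sum_le_sum (fun c _ => Nat.le_mul_self _)
    omega
  set e := fib S m c0 with he
  set n' := (S.filter fun s => proj m s ≠ c0).card with hn'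
  have hS' : ∑ s ∈ S, fib S (dir u) (proj (dir u) s) ≤ 2 * p - 1 := by
    rw [hcount]; omega
  rw [hS] at hlow
  have h2e : p + 1 ≤ 2 * e := by omega
  have hee : e * e ≤ e + (p - 1) := by omega
  have he2 : e ≤ 2 := by
    by_contra hcon
    push Not at hcon
    have h5 : 3 * e ≤ e * e := Nat.mul_le_mul_right e hcon
    omega
  have hp3 : p = 3 := by omega
  subst hp3
  exact hlm1 (zmod3 l hl0 hl1)

/-- an affine map of prime order preserving `S` -/
theorem prime_case (hp2 : p ≠ 2)
    (hno : ¬ ∃ H : AddSubgroup (ZMod p × ZMod p), ∀ x, x ∈ H ↔ x ∈ T)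
    (σ : Equiv.Perm (ZMod p × ZMod p)) (hσ : IsAff σ)
    (hσS : ∀ s ∈ S, σ s ∈ S) (r : ℕ) (hr : r.Prime) (h2 : σ ^ r = 1) (h1 : σ ≠ 1) :
    r ≠ 2 ∧ ∃ x0 ∈ S, σ x0 = x0 ∧ ∀ y, σ y = y → y = x0 := by
  classical
  have hr2 : r ≠ 2 := by
    rintro rfl
    exact hno (invol S T hS hSid hT hp2 σ hσ hσS h2 h1)
  have hrp : r ≠ p := by
    rintro rfl
    exact hno (order_p S T hS hSid hT hp2 σ hσ hσS h2 h1)
  refine ⟨hr2, ?_⟩
  have hpowS : ∀ (k : ℕ) s, s ∈ S → (σ ^ k) s ∈ S := by
    intro k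
    induction k with
    | zero => intro s hs; simpa using hs
    | succ k ih =>
      intro s hs
      rw [pow_succ, Equiv.Perm.mul_apply]
      exact ih _ (hσS s hs)
  have hiff : ∀ x, σ x ∈ S ↔ x ∈ S := by
    intro x
    refine ⟨fun hx => ?_, hσS x⟩
    have h3 := hpowS (r - 1) _ hx
    rw [← Equiv.Perm.mul_apply, ← pow_succ, Nat.sub_add_cancel hr.one_le, h2] at h3
    simpa using h3
  haveI : Fact r.Prime := ⟨hr⟩
  have hcard : Fintype.card {x // x ∈ S} = p := by rw [Fintype.card_coe, hS]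
  have hnd : ¬ r ∣ Fintype.card {x // x ∈ S} := by
    rw [hcard]
    intro hd
    exact hrp ((Nat.prime_dvd_prime_iff_eq hr hp.out).1 hd)
  have hτ : (σ.subtypePerm hiff) ^ r ^ 1 = 1 := by
    rw [pow_one, Equiv.Perm.subtypePerm_pow]
    apply Equiv.ext
    intro x
    apply Subtype.ext
    rw [Equiv.Perm.subtypePerm_apply]
    simp [h2]
  obtain ⟨⟨x0, hx0S⟩, hx0⟩ := Equiv.Perm.exists_fixed_point_of_prime hnd hτ
  have hx0' : σ x0 = x0 := congrArg Subtype.val hx0
  refine ⟨x0, hx0S, hx0', fun y hy => ?_⟩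
  by_contra hne
  exact no_homology S T hS hSid hT hp2 σ hσ hσS r hr hr2 hrp h2 h1 x0 y hne hx0' hy

/-- the general affine symmetry -/
theorem unique_fix (hp2 : p ≠ 2)
    (hno : ¬ ∃ H : AddSubgroup (ZMod p × ZMod p), ∀ x, x ∈ H ↔ x ∈ T)
    (σ : Equiv.Perm (ZMod p × ZMod p)) (hσ : IsAff σ)
    (hσS : ∀ s ∈ S, σ s ∈ S) (h1 : σ ≠ 1) :
    ∃ x0 ∈ S, σ x0 = x0 ∧ ∀ y, σ y = y → y = x0 := by
  classical
  have hpowS : ∀ (k : ℕ) s, s ∈ S → (σ ^ k) s ∈ S := by
    intro k
    induction k with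
    | zero => intro s hs; simpa using hs
    | succ k ih =>
      intro s hs
      rw [pow_succ, Equiv.Perm.mul_apply]
      exact ih _ (hσS s hs)
  have hn1 : orderOf σ ≠ 1 := fun h => h1 (orderOf_eq_one_iff.1 h)
  have hn0 : 0 < orderOf σ := orderOf_pos σ
  set r := (orderOf σ).minFac with hrdef
  have hr : r.Prime := Nat.minFac_prime hn1
  obtain ⟨k, hk⟩ := Nat.minFac_dvd (orderOf σ)
  rw [← hrdef] at hk
  have hk0 : k ≠ 0 := by rintro rfl; rw [mul_zero] at hk; omega
  have hklt : k < orderOf σ := by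
    rw [hk]
    exact lt_mul_of_one_lt_left (Nat.pos_of_ne_zero hk0) hr.one_lt
  obtain ⟨_, x0, hx0S, hx0, huniq⟩ := prime_case S T hS hSid hT hp2 hno (σ ^ k) (hσ.pow k)
    (hpowS k) r hr (by rw [← pow_mul, mul_comm, ← hk, pow_orderOf_eq_one])
    (pow_ne_one_of_lt_orderOf hk0 hklt)
  have hfix : σ x0 = x0 := by
    apply huniq
    rw [← Equiv.Perm.mul_apply, ← pow_succ, pow_succ', Equiv.Perm.mul_apply, hx0]
  refine ⟨x0, hx0S, hfix, fun y hy => ?_⟩
  apply huniq
  have hyk : ∀ j : ℕ, (σ ^ j) y = y := by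
    intro j
    induction j with
    | zero => simp
    | succ j ih => rw [pow_succ, Equiv.Perm.mul_apply, hy]; exact ih
  exact hyk k

theorem odd_order (hp2 : p ≠ 2)
    (hno : ¬ ∃ H : AddSubgroup (ZMod p × ZMod p), ∀ x, x ∈ H ↔ x ∈ T)
    (σ : Equiv.Perm (ZMod p × ZMod p)) (hσ : IsAff σ)
    (hσS : ∀ s ∈ S, σ s ∈ S) : Odd (orderOf σ) := by
  classical
  by_contra hev
  rw [Nat.not_odd_iff_even] at hev
  obtain ⟨k, hk⟩ := hev
  have hpowS : ∀ (k : ℕ) s, s ∈ S → (σ ^ k) s ∈ S := by
    intro k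
    induction k with
    | zero => intro s hs; simpa using hs
    | succ k ih =>
      intro s hs
      rw [pow_succ, Equiv.Perm.mul_apply]
      exact ih _ (hσS s hs)
  have hn0 : 0 < orderOf σ := orderOf_pos σ
  have hk0 : k ≠ 0 := by omega
  exact (prime_case S T hS hSid hT hp2 hno (σ ^ k) (hσ.pow k) (hpowS k) 2 Nat.prime_two
    (by rw [← pow_mul, mul_two, ← hk, pow_orderOf_eq_one])
    (pow_ne_one_of_lt_orderOf hk0 (by omega))).1 rfl

theorem order_dvd (hp2 : p ≠ 2)
    (hno : ¬ ∃ H : AddSubgroup (ZMod p × ZMod p), ∀ x, x ∈ H ↔ x ∈ T)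
    (σ : Equiv.Perm (ZMod p × ZMod p)) (hσ : IsAff σ)
    (hσS : ∀ s ∈ S, σ s ∈ S) (h1 : σ ≠ 1) : orderOf σ ∣ p - 1 := by
  classical
  have hpp := hp.out.two_le
  obtain ⟨x0, hx0S, hx0, hx0u⟩ := unique_fix S T hS hSid hT hp2 hno σ hσ hσS h1
  have hpowS : ∀ (k : ℕ) s, s ∈ S → (σ ^ k) s ∈ S := by
    intro k
    induction k with
    | zero => intro s hs; simpa using hs
    | succ k ih =>
      intro s hs
      rw [pow_succ, Equiv.Perm.mul_apply]
      exact ih _ (hσS s hs)
  have hpowx : ∀ k : ℕ, (σ ^ k) x0 = x0 := by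
    intro k
    induction k with
    | zero => simp
    | succ k ih => rw [pow_succ, Equiv.Perm.mul_apply, hx0, ih]
  have hiff : ∀ x, σ x ∈ S ↔ x ∈ S := by
    intro x
    refine ⟨fun hx => ?_, hσS x⟩
    have h3 := hpowS (orderOf σ - 1) _ hx
    rw [← Equiv.Perm.mul_apply, ← pow_succ, Nat.sub_add_cancel (orderOf_pos σ),
      pow_orderOf_eq_one] at h3
    simpa using h3
  set τ : Equiv.Perm {x // x ∈ S} := σ.subtypePerm hiff with hτ
  have hτk : ∀ (k : ℕ) (x : {x // x ∈ S}), ((τ ^ k) x : ZMod p × ZMod p) = (σ ^ k) x := by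
    intro k x
    rw [hτ, Equiv.Perm.subtypePerm_pow, Equiv.Perm.subtypePerm_apply]
  have hdvd1 : orderOf σ ∣ orderOf τ := by
    apply orderOf_dvd_of_pow_eq_one
    apply eq_one_of_fix S T hS hSid hT hp2 _ (hσ.pow _)
    intro s hs
    have h3 := hτk (orderOf τ) ⟨s, hs⟩
    rw [pow_orderOf_eq_one] at h3
    exact h3.symm
  refine hdvd1.trans ?_
  -- Burnside
  have hfix1 : ∀ g : Subgroup.zpowers τ, g ≠ 1 →
      Fintype.card (MulAction.fixedBy {x // x ∈ S} g) = 1 := by
    intro g hg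
    obtain ⟨k, hk⟩ := (isOfFinOrder_of_finite τ).mem_powers_iff_mem_zpowers.2 g.2
    simp only at hk
    have hσk : σ ^ k ≠ 1 := by
      intro h3
      apply hg
      apply Subtype.ext
      rw [← hk]
      apply Equiv.ext
      intro x
      apply Subtype.ext
      rw [hτk, h3]
      rfl
    obtain ⟨y0, hy0S, hy0, hy0u⟩ := unique_fix S T hS hSid hT hp2 hno (σ ^ k) (hσ.pow k)
      (hpowS k) hσk
    have hxy : x0 = y0 := hy0u x0 (hpowx k)
    rw [Fintype.card_eq_one_iff]
    have hsm : ∀ x : {x // x ∈ S}, ((g • x : {x // x ∈ S}) : ZMod p × ZMod p) = (σ ^ k) x := by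
      intro x
      rw [← hτk, hk]
      rfl
    refine ⟨⟨⟨x0, hx0S⟩, ?_⟩, ?_⟩
    · rw [MulAction.mem_fixedBy]
      apply Subtype.ext
      rw [hsm]
      exact hpowx k
    · rintro ⟨⟨y, hyS⟩, hy⟩
      rw [MulAction.mem_fixedBy] at hy
      have h4 := congrArg Subtype.val hy
      rw [hsm] at h4
      have h5 := hy0u y h4
      apply Subtype.ext
      apply Subtype.ext
      exact h5.trans hxy.symm
  have hfix0 : Fintype.card (MulAction.fixedBy {x // x ∈ S} (1 : Subgroup.zpowers τ)) = p := by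
    have : Fintype.card (MulAction.fixedBy {x // x ∈ S} (1 : Subgroup.zpowers τ)) =
        Fintype.card {x // x ∈ S} := by
      apply Fintype.card_congr
      refine (Equiv.subtypeUnivEquiv ?_)
      intro x
      rw [MulAction.mem_fixedBy, one_smul]
    rw [this, Fintype.card_coe, hS]
  have hburn := MulAction.sum_card_fixedBy_eq_card_orbits_mul_card_group
    (Subgroup.zpowers τ) {x // x ∈ S}
  rw [← Finset.add_sum_erase _ _ (mem_univ (1 : Subgroup.zpowers τ)), hfix0,
    Finset.sum_congr rfl (g := fun _ => 1) (fun g hg => hfix1 g (Finset.ne_of_mem_erase hg))]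
    at hburn
  simp only [sum_const, smul_eq_mul, mul_one] at hburn
  rw [Finset.card_erase_of_mem (mem_univ _), Finset.card_univ, Fintype.card_zpowers] at hburn
  have hτpos : 0 < orderOf τ := orderOf_pos τ
  have h7 : orderOf τ ∣ (p - 1) + orderOf τ := by
    have e : (p - 1) + orderOf τ = p + (orderOf τ - 1) := by omega
    rw [e, hburn]
    exact Nat.dvd_mul_left _ _
  exact (Nat.dvd_add_left (dvd_refl _)).1 h7

end Sid

end Pool.Agent.H47.Sidon
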