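import Mathlib
import Pool.Agent.H47.Sidon.Odd

set_option autoImplicit false

namespace Pool.Agent.H47.Sidon

open Finset Polynomial Pool.Agent.H54.Sidon
open Pool.Agent.Results.MP_bd8c52_co.MomentCriterion (proj proj_none_eq proj_some_eq
  moments_of_many P_zero_of_moments)

variable {p : ℕ} [hp : Fact p.Prime]

theorem proj_eq_ell (m : Option (ZMod p)) : ∃ u v : ZMod p, proj m = ell u v := by
  rcases m with _ | m
  · exact ⟨1, 0, proj_none_eq⟩
  · exact ⟨-m, 1, proj_some_eq m⟩

theorem sum_eval_zero {ι : Type*} (s : Finset ι) (f : ι → ZMod p) (q : (ZMod p)[X])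
    (hQ : ∀ k, k ≤ q.natDegree → ∑ t ∈ s, f t ^ k = 0) : ∑ t ∈ s, q.eval (f t) = 0 := by
  simp only [eval_eq_sum_range]
  rw [Finset.sum_comm]
  apply Finset.sum_eq_zero
  intro k hk
  rw [mem_range] at hk
  rw [← Finset.mul_sum, hQ k (by omega), mul_zero]

theorem sum_fiber (T : Finset (ZMod p × ZMod p)) (m : Option (ZMod p)) (g : ZMod p → ZMod p) :
    ∑ t ∈ T, g (proj m t) = ∑ d, (fib T m d : ZMod p) * g d := by
  classical
  rw [← Finset.sum_fiberwise T (proj m)]
  apply Finset.sum_congr rfl
  intro d _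
  rw [fib, ← nsmul_eq_mul]
  apply Finset.sum_eq_card_nsmul
  intro t ht
  rw [(mem_filter.1 ht).2]

section Sid3

variable (S T : Finset (ZMod p × ZMod p)) (hS : S.card = p)
  (hSid : ∀ a ∈ S, ∀ b ∈ S, ∀ c ∈ S, ∀ d ∈ S,
      a + b = c + d → (a = c ∧ b = d) ∨ (a = d ∧ b = c))
  (hT : ∀ x, x ∈ T ↔ x = 0 ∨ ∀ a ∈ S, ∀ b ∈ S, a - b ≠ x)

include hS hSid hT

theorem P_zero_proj (m : Option (ZMod p))
    (hinj : Set.InjOn (proj m) (T : Set (ZMod p × ZMod p)))
    (j : ℕ) (hj : 1 ≤ j) (hj2 : 2 * j + 1 < p) : ∑ s ∈ S, proj m s ^ j = 0 := by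
  have hTcard : T.card = p := card_T S T hS hSid hT
  obtain ⟨u, v, huv⟩ := proj_eq_ell m
  rw [huv] at hinj ⊢
  exact P_zero_of_Q_zero S T hS hSid hT u v
    (fun k _ hk => Q_zero_of_inj T hTcard u v hinj k hk) j hj hj2

theorem fib_T_zero_of_inj (m : Option (ZMod p))
    (hinj : Set.InjOn (proj m) (T : Set (ZMod p × ZMod p))) : fib T m 0 = 1 := by
  apply le_antisymm _ (fib_pos S T hT m)
  rw [fib, Finset.card_le_one]
  intro x hx y hy
  rw [mem_filter] at hx hy
  exact hinj hx.1 hy.1 (hx.2.trans hy.2.symm)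

/-- the number of occupied lines of an undetermined direction -/
theorem occ_card (hp2 : p ≠ 2) (m : Option (ZMod p))
    (hinj : Set.InjOn (proj m) (T : Set (ZMod p × ZMod p))) :
    (univ.filter fun c => fib S m c ≠ 0).card ≤ (p + 1) / 2 ∨
      ∀ c, fib S m c ≠ 0 := by
  classical
  have hpp := hp.out.two_le
  have hodd : p % 2 = 1 := (hp.out.eq_two_or_odd).resolve_left hp2
  set f : ZMod p × ZMod p → ZMod p := proj m with hf
  set s : Multiset (ZMod p) := S.val.map f with hs
  have hcard : Multiset.card s = p := by rw [hs, Multiset.card_map]; exact hS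
  set R : (ZMod p)[X] := (s.map (fun t => X - C t)).prod with hR
  have hRmonic : R.Monic := by
    rw [hR]; exact monic_multiset_prod_of_monic _ _ (fun a _ => monic_X_sub_C a)
  have hRdeg : R.natDegree = p := by
    rw [hR, natDegree_multiset_prod_X_sub_C_eq_card, hcard]
  have hRroots : R.roots = s := by rw [hR]; exact roots_multiset_prod_X_sub_C s
  have hRcoeff : ∀ k, (p + 1) / 2 < k → k < p → R.coeff k = 0 := by
    intro k hk1 hk2
    rw [hR, Multiset.prod_X_sub_C_coeff s (by omega), hcard,
      esymm_zero S f ((p - 1) / 2)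
        (fun j hj1 hj2 => P_zero_proj S T hS hSid hT m hinj j hj1 (by omega))
        (p - k) (by omega) (by omega) (by omega), mul_zero]
  set G : (ZMod p)[X] := R - X ^ p with hG
  have hGdeg : G.natDegree ≤ (p + 1) / 2 := by
    rw [natDegree_le_iff_coeff_eq_zero]
    intro k hk
    rw [hG, coeff_sub, coeff_X_pow]
    rcases lt_trichotomy k p with hlt | heq | hgt
    · rw [if_neg (by omega), hRcoeff k (by omega) hlt, sub_zero]
    · rw [if_pos heq, heq]
      have : R.coeff p = 1 := by
        have h := hRmonic.coeff_natDegree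
        rwa [hRdeg] at h
      rw [this, sub_self]
    · rw [if_neg (by omega), coeff_eq_zero_of_natDegree_lt (by omega), sub_zero]
  have heval : ∀ z, (G + X).eval z = R.eval z := by
    intro z
    rw [hG]
    simp [ZMod.pow_card]
  have hroot : ∀ c, fib S m c ≠ 0 ↔ R.eval c = 0 := by
    intro c
    have h1 : R.eval c = 0 ↔ c ∈ s := by
      rw [← hRroots, mem_roots hRmonic.ne_zero, IsRoot]
    rw [h1, hs, Multiset.mem_map, fib, Finset.card_ne_zero, Finset.Nonempty]
    simp only [mem_filter]
    rfl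
  rcases Nat.lt_or_ge ((p + 1) / 2) (univ.filter fun c => fib S m c ≠ 0).card with h | h
  · right
    have hGX : G + X = 0 := by
      apply eq_zero_of_natDegree_lt_card_of_eval_eq_zero' (G + X)
        (univ.filter fun c => fib S m c ≠ 0)
      · intro c hc
        rw [heval, ← hroot]
        exact (mem_filter.1 hc).2
      · refine lt_of_le_of_lt (natDegree_add_le _ _) (lt_of_le_of_lt ?_ h)
        rw [natDegree_X]
        exact max_le hGdeg (by omega)
    intro c
    rw [hroot, ← heval, hGX, eval_zero]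
  · left; exact h

/-- in an undetermined direction the lines meet `S` in at most two points -/
theorem fib_le_two (hp2 : p ≠ 2) (m : Option (ZMod p))
    (hinj : Set.InjOn (proj m) (T : Set (ZMod p × ZMod p))) (c : ZMod p) : fib S m c ≤ 2 := by
  classical
  have hpp := hp.out.two_le
  have hodd : p % 2 = 1 := (hp.out.eq_two_or_odd).resolve_left hp2
  have hsum := sum_fib S m
  rw [hS] at hsum
  rcases occ_card S T hS hSid hT hp2 m hinj with h | h
  · have h0 := corr_zero S T hS hSid hT m
    rw [fib_T_zero_of_inj S T hS hSid hT m hinj] at h0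
    have hle : ∀ c ∈ (univ : Finset (ZMod p)), 3 * fib S m c ≤
        fib S m c * fib S m c + 2 * (if fib S m c ≠ 0 then 1 else 0) := by
      intro c _
      rcases Nat.lt_or_ge (fib S m c) 3 with h3 | h3
      · interval_cases fib S m c <;> simp
      · have := Nat.mul_le_mul_right (fib S m c) h3
        omega
    have hsle := Finset.sum_le_sum hle
    have heq : ∑ c, 3 * fib S m c =
        ∑ c, (fib S m c * fib S m c + 2 * (if fib S m c ≠ 0 then 1 else 0)) := by
      apply le_antisymm hsle
      rw [Finset.sum_add_distrib, ← Finset.mul_sum, ← Finset.mul_sum, hsum,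
        ← Finset.card_filter]
      omega
    have h1 := (Finset.sum_eq_sum_iff_of_le hle).1 heq c (mem_univ c)
    by_contra hcon
    push Not at hcon
    have h2 : fib S m c ≠ 0 := by omega
    simp only [h2, ne_eq, not_false_eq_true, if_true] at h1
    have h3 := Nat.mul_le_mul_right (fib S m c) (show 3 ≤ fib S m c by omega)
    omega
  · have hle : ∀ c ∈ (univ : Finset (ZMod p)), 1 ≤ fib S m c := by
      intro c _
      exact Nat.one_le_iff_ne_zero.2 (h c)
    have heq : ∑ c : ZMod p, 1 = ∑ c, fib S m c := by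
      rw [hsum]; simp [ZMod.card]
    have h1 := (Finset.sum_eq_sum_iff_of_le hle).1 heq c (mem_univ c)
    omega

theorem inj_iff (hp2 : p ≠ 2) (m : Option (ZMod p)) :
    Set.InjOn (proj m) (T : Set (ZMod p × ZMod p)) ↔ (oddSet S m).card = 1 := by
  constructor
  · intro h
    rw [odd_card_of_le_two S T hS hSid hT m (fib_le_two S T hS hSid hT hp2 m h)]
    exact fib_T_zero_of_inj S T hS hSid hT m h
  · exact inj_of_odd_one S T hS hSid hT hp2 m

/-- a determined direction has a large defect -/
theorem defect_ge (A : Finset (Option (ZMod p)))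
    (hA : ∀ m ∈ A, Set.InjOn (proj m) (T : Set (ZMod p × ZMod p))) (hA4 : 4 * A.card ≤ p - 1)
    (m : Option (ZMod p)) (hm : ¬ Set.InjOn (proj m) (T : Set (ZMod p × ZMod p))) :
    2 * A.card + 1 ≤ (univ.filter fun d => fib T m d ≠ 1).card := by
  classical
  have hpp := hp.out.two_le
  have hTcard : T.card = p := card_T S T hS hSid hT
  by_contra hcon
  push Not at hcon
  obtain ⟨u, v, huv⟩ := proj_eq_ell m
  -- moments of `S`
  have hP : ∀ j, 1 ≤ j → j < A.card → ∑ s ∈ S, ell u v s ^ j = 0 := by
    intro j hj1 hj2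
    apply P_zero_of_moments
    intro i i' hii
    exact moments_of_many S j (by omega) A hj2
      (fun m hm => P_zero_proj S T hS hSid hT m (hA m hm) j hj1 (by omega)) i i' hii
  have hQ : ∀ k, k < 2 * A.card → ∑ t ∈ T, proj m t ^ k = 0 := by
    intro k hk
    rw [huv]
    rcases Nat.eq_zero_or_pos k with rfl | hk0
    · simp [hTcard]
    · exact Q_zero S T hS hSid hT u v A.card hP k hk0 hk
  have hne : ∃ d0, fib T m d0 ≠ 1 := by
    by_contra h
    push Not at h
    exact hm (inj_of_fib_one T m h)
  obtain ⟨d0, hd0⟩ := hne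
  set W : Finset (ZMod p) := univ.filter fun d => fib T m d ≠ 1 with hW
  have hd0W : d0 ∈ W := by rw [hW, mem_filter]; exact ⟨mem_univ _, hd0⟩
  set q : (ZMod p)[X] := ∏ d ∈ W.erase d0, (X - C d) with hq
  have hqdeg : q.natDegree = W.card - 1 := by
    rw [hq, natDegree_prod_of_monic _ _ (fun d _ => monic_X_sub_C d)]
    simp [Finset.card_erase_of_mem hd0W]
  have hWpos : 0 < W.card := Finset.card_pos.2 ⟨d0, hd0W⟩
  have h1 : ∑ t ∈ T, q.eval (proj m t) = 0 := by
    apply sum_eval_zero
    intro k hk
    apply hQ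
    omega
  have h2 : ∑ d : ZMod p, q.eval d = 0 := by
    apply sum_eval_zero univ (fun d => d)
    intro k hk
    apply FiniteField.sum_pow_lt_card_sub_one
    rw [ZMod.card]
    omega
  rw [sum_fiber T m (fun d => q.eval d)] at h1
  have h3 : ∑ d : ZMod p, ((fib T m d : ZMod p) - 1) * q.eval d = 0 := by
    simp only [sub_mul, one_mul, Finset.sum_sub_distrib, h1, h2, sub_zero]
  rw [Finset.sum_eq_single d0] at h3
  · have h4 : q.eval d0 ≠ 0 := by
      rw [hq, eval_prod, Finset.prod_ne_zero_iff]
      intro d hd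
      rw [mem_erase] at hd
      simp only [eval_sub, eval_X, eval_C]
      exact sub_ne_zero.2 (Ne.symm hd.1)
    have h5 := (mul_eq_zero.1 h3).resolve_right h4
    have h6 : ((fib T m d0 : ℕ) : ZMod p) = ((1 : ℕ) : ZMod p) := by
      rw [Nat.cast_one]; exact sub_eq_zero.1 h5
    rw [ZMod.natCast_eq_natCast_iff'] at h6
    have h7 : fib T m d0 ≤ p :=
      (Finset.card_le_card (Finset.filter_subset _ _)).trans hTcard.le
    rw [Nat.mod_eq_of_lt (show 1 < p by omega)] at h6
    rcases Nat.lt_or_ge (fib T m d0) p with h8 | h8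
    · rw [Nat.mod_eq_of_lt h8] at h6
      exact hd0 h6
    · have h9 : fib T m d0 = p := le_antisymm h7 h8
      rw [h9, Nat.mod_self] at h6
      omega
  · intro d _ hd
    by_cases hdW : d ∈ W
    · have : q.eval d = 0 := by
        rw [hq, eval_prod]
        apply Finset.prod_eq_zero (i := d)
        · rw [mem_erase]; exact ⟨hd, hdW⟩
        · simp
      rw [this, mul_zero]
    · have : fib T m d = 1 := by
        by_contra h
        exact hdW (by rw [hW, mem_filter]; exact ⟨mem_univ _, h⟩)
      rw [this]; simp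
  · intro h; exact absurd (mem_univ _) h

end Sid3

end Pool.Agent.H47.Sidon
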